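import Mathlib
import Pool.Agent.Work.MP_620441_co.Final

set_option autoImplicit false

namespace Pool.Agent.Results.MP_620441_co.AffineHull

open Pool.Agent.Work.MP_620441_co

/-- For all `d ≥ 1` and `s ≥ d + 2`, the affine hull of the set `V(s,d)` of all vectors
`(r(S), P(S))`, `S` an `s`-point set in general position in `ℝ^d`, is exactly the solution set
of the explicit linear system `System s d`. -/
theorem result : ∀ d s : ℕ, 1 ≤ d → d + 2 ≤ s →
    (affineSpan ℝ (V s d) : Set (Fin (s / 2) ⊕ Fin (d / 2 + 1) → ℝ)) = {v | System s d v} :=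
  fun _ _ hd hs => affineSpan_V hd hs

end Pool.Agent.Results.MP_620441_co.AffineHull
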